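import Pool.Agent.H21.L.R_seed8.TH270.RS.Core
import Pool.Agent.H21.L.R_seed8.TH270.SH.Law
import Pool.Agent.H21.L.R_seed8.TH942.ES.StarExt
import Pool.Agent.H21.L.R_seed8.TH942.RZ.Curve

/-!
# Weighted sums over the prime powers of a system of primes
-/

set_option autoImplicit false

open MeasureTheory Filter Topology Set Complex
open Pool.Agent.TH942.LS (Dat S Wt)
open Pool.Agent.TH942.SL
open Pool.Agent.TH942.ES
open Pool.Agent.TH942.RZ (rzw rzv rzv_Wt rzv_top rzv_dini)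

namespace Pool.Agent.TH270.RS

variable {X : Type} {d : ℕ} {N : X → ℕ} {α : X → Fin d → ℂ} {Ψ g : ℂ → ℂ} {e : X × ℕ → ℕ} {m : ℕ}

/-- the weighted sum over the prime powers `≤ Y^b` -/
noncomputable def Mw (N : X → ℕ) (α : X → Fin d → ℂ) (w : ℝ → ℝ) (b Y : ℝ) : ℝ :=
  ∑ᶠ (p : X × ℕ) (_ : (N p.1 : ℝ) ^ (p.2 + 1) ≤ Y ^ b),
    w (((p.2 : ℝ) + 1) * Real.log (N p.1) / Real.log Y) * cP N α p

/-- the truncated weight -/
noncomputable def cut (w : ℝ → ℝ) (b : ℝ) : ℝ → ℝ := (Ioc (0 : ℝ) b).indicator w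

/-- the coefficients with the opposite sign -/
noncomputable def cS' (N : X → ℕ) (α : X → Fin d → ℂ) (e : X × ℕ → ℕ) (n : ℕ) : ℝ := -cS N α e n

variable (E : Sys N α)
include E

theorem dat' (he : Function.Injective e) : Dat (lamS N e) (cS' N α e) (Real.log 2) 1 where
  δ0 := (E.datS he (σ := 1) (by norm_num)).δ0
  σ0 := (E.datS he (σ := 1) (by norm_num)).σ0
  lam_ge := (E.datS he (σ := 1) (by norm_num)).lam_ge
  sum := by
    refine (E.datS he (σ := 1) (by norm_num)).sum.congr fun n => ?_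
    unfold cS'
    rw [abs_neg]

omit E in
theorem DD_neg (s : ℂ) : -DD (lamS N e) (cS' N α e) s = DD (lamS N e) (cS N α e) s := by
  unfold DD
  rw [← tsum_neg]
  refine tsum_congr fun n => ?_
  unfold cS'
  push_cast
  ring

/-- the weighted sums as means -/
theorem Mw_eq (he : Function.Injective e) {w : ℝ → ℝ} {W b : ℝ} (hw : Wt (cut w b) W b) {Y : ℝ}
    (hY : 1 < Y) : Mw N α w b Y = -S (lamS N e) (cS' N α e) (cut w b) (Real.log Y) := by
  have hT : 0 < Real.log Y := Real.log_pos hY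
  have hfin := E.finS (Y ^ b)
  have e4 : Mw N α w b Y = ∑ p ∈ hfin.toFinset,
      w (((p.2 : ℝ) + 1) * Real.log (N p.1) / Real.log Y) * cP N α p :=
    finsum_mem_eq_finite_toFinset_sum
      (fun p : X × ℕ => w (((p.2 : ℝ) + 1) * Real.log (N p.1) / Real.log Y) * cP N α p) hfin
  have e1 : -S (lamS N e) (cS' N α e) (cut w b) (Real.log Y) =
      ∑' n, cS N α e n * cut w b (lamS N e n / Real.log Y) := by
    unfold S
    rw [← tsum_neg]
    refine tsum_congr fun n => ?_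
    unfold cS'
    ring
  have e2 : ∑' n, cS N α e n * cut w b (lamS N e n / Real.log Y) =
      ∑' p, cP N α p * cut w b (lamP N p / Real.log Y) :=
    tsum_cS he (fun c l => c * cut w b (l / Real.log Y)) (fun l => by simp)
  have hmem : ∀ p : X × ℕ, p ∈ hfin.toFinset ↔ lamP N p / Real.log Y ≤ b := by
    intro p
    rw [Set.Finite.mem_toFinset, Set.mem_ofPred_eq]
    have hN : (0 : ℝ) < (N p.1 : ℝ) ^ (p.2 + 1) := by
      have := E.Npos p.1
      positivity
    have hYb : 0 < Y ^ b := Real.rpow_pos_of_pos (by linarith) _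
    rw [← Real.log_le_log_iff hN hYb, Real.log_pow, Real.log_rpow (by linarith), div_le_iff₀ hT]
    unfold lamP
    push_cast
    rfl
  have hlam : ∀ p : X × ℕ, 0 < lamP N p / Real.log Y := fun p => by
    have h1 := E.logN p.1
    unfold lamP
    positivity
  rw [e1, e2, e4, tsum_eq_sum (s := hfin.toFinset)]
  · refine Finset.sum_congr rfl fun p hp => ?_
    have h1 := (hmem p).1 hp
    have h2 : cut w b (lamP N p / Real.log Y) = w (lamP N p / Real.log Y) := by
      unfold cut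
      rw [indicator_of_mem (show lamP N p / Real.log Y ∈ Ioc (0 : ℝ) b from ⟨hlam p, h1⟩)]
    rw [h2, mul_comm]
    rfl
  · intro p hp
    have h1 : b < lamP N p / Real.log Y := by
      by_contra h
      exact hp ((hmem p).2 (not_lt.1 h))
    rw [hw.supp _ h1, mul_zero]

/-- the core data -/
theorem exists_cor (hreal : ∀ v k, (∑ i, zv N α v i ^ k).im = 0)
    (hd : ∀ s : ℂ, 0 < s.re → DifferentiableAt ℂ Ψ s)
    (hL : ∀ s : ℂ, 1 / 2 < s.re → Ψ s = LE N α s) (h0 : AnalyticAt ℂ Ψ 0)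
    (hm : analyticOrderAt Ψ 0 = m) :
    ∃ (e : X × ℕ → ℕ) (g : ℂ → ℂ), Function.Injective e ∧
      Cor (lamS N e) (cS' N α e) (Real.log 2) 1 Ψ g m := by
  have := E.cnt
  obtain ⟨e, he⟩ := Countable.exists_injective_nat (X × ℕ)
  rw [h0.analyticOrderAt_eq_natCast] at hm
  obtain ⟨g, hg, hg1, hge⟩ := hm
  refine ⟨e, g, he, dat' E he, hd, fun s hs => ?_, hg, hg1, ?_⟩
  · rw [DD_neg, E.exp_DD hreal he (by linarith), hL s (by linarith)]
  · filter_upwards [hge] with z hz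
    rw [hz, sub_zero, smul_eq_mul]

end Pool.Agent.TH270.RS

namespace Pool.Agent.TH270.RS

variable {X : Type} {d : ℕ} {N : X → ℕ} {α : X → Fin d → ℂ} {Ψ g : ℂ → ℂ} {e : X × ℕ → ℕ} {m : ℕ}
  {w : ℝ → ℝ} {W b : ℝ}

/-- data for the laws: `Ψ` continues the Euler product, order `m` at the centre -/
structure Lw (N : X → ℕ) (α : X → Fin d → ℂ) (Ψ : ℂ → ℂ) (m : ℕ) : Prop where
  E : Sys N α
  hreal : ∀ v k, (∑ i, zv N α v i ^ k).im = 0
  hd : ∀ s : ℂ, 0 < s.re → DifferentiableAt ℂ Ψ s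
  hL : ∀ s : ℂ, 1 / 2 < s.re → Ψ s = LE N α s
  h0 : AnalyticAt ℂ Ψ 0
  hm : analyticOrderAt Ψ 0 = m

/-- the conditions on a weight on `(0, b]` -/
structure Ad (w : ℝ → ℝ) (W b : ℝ) : Prop where
  wt : Wt (cut w b) W b
  top : ∀ κ, κ < b → ¬ ∀ᵐ x, x ∈ Ioo κ b → cut w b x = 0
  dini : IntegrableOn (fun u : ℝ => |cut w b u - 1| / u) (Ioo 0 b)

theorem cut_rzw {k : ℝ} : cut (rzw k) 1 = rzv k := rfl

theorem Ad_rzw {k : ℝ} (hk : 0 < k) : Ad (rzw k) 1 1 where
  wt := by rw [cut_rzw]; exact rzv_Wt hk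
  top := by rw [cut_rzw]; exact rzv_top
  dini := by rw [cut_rzw]; exact rzv_dini hk

/-- **any weight**: the logarithmic growth constant is the order, and there are no zeros -/
theorem Lw.of_lim (H : Lw N α Ψ m) (hw : Ad w W b) {ρ : ℝ}
    (h : Tendsto (fun Y : ℝ => Mw N α w b Y / Real.log (Real.log Y)) atTop (𝓝 (-ρ))) :
    (∀ s : ℂ, 0 < s.re → Ψ s ≠ 0) ∧ ρ = m := by
  obtain ⟨e, g, he, C⟩ := exists_cor H.E H.hreal H.hd H.hL H.h0 H.hm
  have hlim : Tendsto (fun T => S (lamS N e) (cS' N α e) (cut w b) T / Real.log T) atTop (𝓝 ρ) := by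
    have h1 := (h.comp Real.tendsto_exp_atTop).neg
    rw [neg_neg] at h1
    refine h1.congr' ?_
    filter_upwards [eventually_gt_atTop 0] with T hT
    simp only [Function.comp_apply]
    rw [Mw_eq H.E he hw.wt (Real.one_lt_exp_iff.2 hT), Real.log_exp]
    ring
  have hS : ∀ α' : ℝ, 0 < α' → ∃ C T₀ : ℝ, ∀ T, T₀ ≤ T →
      |S (lamS N e) (cS' N α e) (cut w b) T| ≤ C * Real.exp (α' * T) := by
    intro α' hα
    have h1 : ∀ᶠ T in atTop, |S (lamS N e) (cS' N α e) (cut w b) T / Real.log T - ρ| < 1 := by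
      have := (Metric.tendsto_nhds.1 hlim) 1 one_pos
      simpa [Real.dist_eq] using this
    obtain ⟨T₀, hT₀⟩ := h1.exists_forall_of_atTop
    refine ⟨(|ρ| + 1) / α', max T₀ 2, fun T hT => ?_⟩
    have h2 := hT₀ T ((le_max_left _ _).trans hT)
    have h3 : 2 ≤ T := (le_max_right _ _).trans hT
    have h4 : 0 < Real.log T := Real.log_pos (by linarith)
    have h5 : |S (lamS N e) (cS' N α e) (cut w b) T / Real.log T| ≤ |ρ| + 1 := by
      have := abs_sub_abs_le_abs_sub (S (lamS N e) (cS' N α e) (cut w b) T / Real.log T) ρ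
      linarith
    rw [abs_div, abs_of_pos h4, div_le_iff₀ h4] at h5
    have h6 := log_le_self' h3
    have h7 : α' * T ≤ Real.exp (α' * T) := by
      have := Real.add_one_le_exp (α' * T)
      linarith
    calc |S (lamS N e) (cS' N α e) (cut w b) T| ≤ (|ρ| + 1) * Real.log T := h5
      _ ≤ (|ρ| + 1) * T := by gcongr
      _ = (|ρ| + 1) / α' * (α' * T) := by field_simp
      _ ≤ _ := by gcongr
  have hne := C.zero_free hw.wt hw.top hS
  exact ⟨hne, C.order_eq hne hw.wt hw.dini hlim⟩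

/-- **one-sided bounds** with a nonnegative weight -/
theorem Lw.of_lower (H : Lw N α Ψ m) (hw : Ad w W b) (hw0 : ∀ u, 0 < u → u ≤ b → 0 ≤ w u) {ρ : ℝ}
    (h : ∀ ε : ℝ, 0 < ε → ∀ᶠ Y : ℝ in atTop, -((ρ + ε) * Real.log (Real.log Y)) ≤ Mw N α w b Y) :
    (∀ s : ℂ, 0 < s.re → Ψ s ≠ 0) ∧ (m : ℝ) ≤ ρ := by
  obtain ⟨e, g, he, C⟩ := exists_cor H.E H.hreal H.hd H.hL H.h0 H.hm
  refine C.order_le hw.wt (fun u => ?_) hw.top hw.dini fun ε hε => ?_
  · unfold cut
    exact indicator_nonneg (fun u hu => hw0 u hu.1 hu.2) u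
  · filter_upwards [Real.tendsto_exp_atTop.eventually (h ε hε), eventually_gt_atTop 0] with T h1 hT
    rw [Mw_eq H.E he hw.wt (Real.one_lt_exp_iff.2 hT), Real.log_exp] at h1
    linarith

/-- **subpolynomial growth excludes zeros** -/
theorem Lw.of_small (H : Lw N α Ψ m) (hw : Ad w W b)
    (h : ∀ ε : ℝ, 0 < ε → ∃ C : ℝ, ∀ᶠ Y : ℝ in atTop, |Mw N α w b Y| ≤ C * Y ^ ε) :
    ∀ s : ℂ, 0 < s.re → Ψ s ≠ 0 := by
  obtain ⟨e, g, he, C⟩ := exists_cor H.E H.hreal H.hd H.hL H.h0 H.hm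
  refine C.zero_free hw.wt hw.top fun α' hα => ?_
  obtain ⟨C', hC'⟩ := h α' hα
  obtain ⟨T₀, hT₀⟩ := ((Real.tendsto_exp_atTop.eventually hC').and
    (eventually_gt_atTop 0)).exists_forall_of_atTop
  refine ⟨C', T₀, fun T hT => ?_⟩
  obtain ⟨h1, h2⟩ := hT₀ T hT
  rw [Mw_eq H.E he hw.wt (Real.one_lt_exp_iff.2 h2), Real.log_exp, abs_neg,
    Real.rpow_def_of_pos (Real.exp_pos T), Real.log_exp, mul_comm T α'] at h1
  exact h1

/-- **the Riesz limit formula** -/
theorem Lw.riesz (H : Lw N α Ψ m) (hne : ∀ s : ℂ, 0 < s.re → Ψ s ≠ 0) {C : ℝ} {κ : ℕ}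
    (hgrow : ∀ s : ℂ, 0 < s.re → ‖Ψ s‖ ≤ C * (1 + ‖s‖) ^ κ * (1 + 1 / s.re) ^ κ) :
    ∃ A : ℝ, 0 < A ∧ Tendsto (fun s => Ψ s / s ^ m) (𝓝[≠] 0) (𝓝 (A : ℂ)) ∧ ∀ k : ℝ, 0 < k →
      Tendsto (fun Y : ℝ => Real.exp (Mw N α (rzw k) 1 Y) * Real.log Y ^ m) atTop
        (𝓝 (A * Real.exp (m * (deriv Real.Gamma (k + 1) / Real.Gamma (k + 1))))) := by
  obtain ⟨e, g, he, Cr⟩ := exists_cor H.E H.hreal H.hd H.hL H.h0 H.hm
  -- the value of `g` at `0`
  have key : ∀ k : ℝ, 0 < k → ∃ l : ℝ, ((Real.exp l : ℝ) : ℂ) = g 0 ∧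
      Tendsto (fun Y : ℝ => Real.exp (Mw N α (rzw k) 1 Y) * Real.log Y ^ m) atTop
        (𝓝 (Real.exp l * Real.exp (m * (deriv Real.Gamma (k + 1) / Real.Gamma (k + 1))))) := by
    intro k hk
    obtain ⟨ℓ₀, h1, h2⟩ := Cr.riesz hne hk hgrow
    set q : ℝ := deriv Real.Gamma (k + 1) / Real.Gamma (k + 1) with hq
    have hw := Ad_rzw hk
    -- real parts
    have h3 : Tendsto (fun T : ℝ => S (lamS N e) (cS' N α e) (rzw k) T - m * Real.log T) atTop
        (𝓝 (-ℓ₀.re - m * q)) := by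
      have := (Complex.continuous_re.tendsto _).comp h2
      have e1 : (-ℓ₀ - m * ((q : ℝ) : ℂ)).re = -ℓ₀.re - m * q := by
        rw [Complex.sub_re, Complex.neg_re]
        congr 1
        rw [← Complex.ofReal_natCast, ← Complex.ofReal_mul, Complex.ofReal_re]
      rw [e1] at this
      refine this.congr fun T => ?_
      simp only [Function.comp_apply]
      rw [Complex.sub_re, Complex.ofReal_re, ← Complex.ofReal_natCast, ← Complex.ofReal_mul,
        Complex.ofReal_re]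
    have h3' : (-ℓ₀ - m * ((q : ℝ) : ℂ)).im = 0 := by
      have h4 := (Complex.continuous_im.tendsto _).comp h2
      have h5 : Tendsto (fun _ : ℝ => (0 : ℝ)) atTop (𝓝 ((-ℓ₀ - m * ((q : ℝ) : ℂ)).im)) := by
        refine h4.congr fun T => ?_
        simp only [Function.comp_apply]
        rw [Complex.sub_im, Complex.ofReal_im, ← Complex.ofReal_natCast, ← Complex.ofReal_mul,
          Complex.ofReal_im, sub_zero]
      exact (tendsto_nhds_unique tendsto_const_nhds h5).symm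
    have him : ℓ₀.im = 0 := by
      rw [Complex.sub_im, Complex.neg_im, ← Complex.ofReal_natCast, ← Complex.ofReal_mul,
        Complex.ofReal_im] at h3'
      linarith
    have hℓ : ((ℓ₀.re : ℝ) : ℂ) = ℓ₀ := Complex.ext (by simp) (by simp [him])
    refine ⟨ℓ₀.re, ?_, ?_⟩
    · rw [Complex.ofReal_exp, hℓ, h1]
    · have hS : ∀ T : ℝ, 0 < T → S (lamS N e) (cS' N α e) (rzw k) T =
          S (lamS N e) (cS' N α e) (cut (rzw k) 1) T := by
        intro T hT
        unfold S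
        refine tsum_congr fun n => ?_
        have h6 : 0 < lamS N e n / T := div_pos ((dat' H.E he).lam0 n) hT
        by_cases h : lamS N e n / T ≤ 1
        · unfold cut
          rw [indicator_of_mem (show lamS N e n / T ∈ Ioc (0 : ℝ) 1 from ⟨h6, h⟩)]
        · push Not at h
          unfold cut
          rw [indicator_of_notMem (fun h2 => not_lt.2 h2.2 h)]
          unfold rzw
          rw [max_eq_right (by linarith), Real.zero_rpow hk.ne']
      have h4 := ((Real.continuous_exp.tendsto _).comp (h3.comp Real.tendsto_log_atTop).neg)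
      have e2 : Real.exp (-(-ℓ₀.re - m * q)) = Real.exp ℓ₀.re * Real.exp (m * q) := by
        rw [← Real.exp_add]
        congr 1
        ring
      rw [e2] at h4
      refine h4.congr' ?_
      filter_upwards [eventually_gt_atTop 1] with Y hY
      have hl := Real.log_pos hY
      simp only [Function.comp_apply]
      rw [Mw_eq H.E he hw.wt hY, hS _ hl]
      have e3 : -(S (lamS N e) (cS' N α e) (cut (rzw k) 1) (Real.log Y) -
          m * Real.log (Real.log Y)) = -S (lamS N e) (cS' N α e) (cut (rzw k) 1) (Real.log Y) +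
          m * Real.log (Real.log Y) := by ring
      rw [e3, Real.exp_add, Real.exp_nat_mul, Real.exp_log hl]
  obtain ⟨l, hl, -⟩ := key 1 one_pos
  refine ⟨Real.exp l, Real.exp_pos l, ?_, fun k hk => ?_⟩
  · rw [hl]
    refine (Cr.hg.continuousAt.tendsto.mono_left nhdsWithin_le_nhds).congr' ?_
    filter_upwards [nhdsWithin_le_nhds Cr.near, self_mem_nhdsWithin] with s hs hs2
    have hs3 : s ≠ 0 := hs2
    rw [hs]
    field_simp
  · obtain ⟨l', hl', h⟩ := key k hk
    have : Real.exp l' = Real.exp l := by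
      have := hl'.trans hl.symm
      exact_mod_cast this
    rwa [this] at h

end Pool.Agent.TH270.RS
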