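import Pool.Agent.H21.L.R_seed8.TH270.RS.Lim
import Pool.Agent.H21.L.R_seed8.TH942.OS.Curve

/-!
# Means of a Dirichlet series and the order and the zeros of its exponential
-/

set_option autoImplicit false

open MeasureTheory Filter Topology Set Complex
open Pool.Agent.TH942.LS (Dat S S_le S_meas P P_le Wt Cont Qf L EE L_real EE_asymp limit_eq lgp lgp_nonneg)
open Pool.Agent.TH942.SL
open Pool.Agent.TH942.RZ (exists_Lam log_near rzw)
open Pool.Agent.TH942.OS (L_real' S0 S0_conv log_upper)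
open Pool.Agent.W263.BSD (LInt)

namespace Pool.Agent.TH270.RS

variable {lam c : ℕ → ℝ} {δ σ W b : ℝ} {Ψ g : ℂ → ℂ} {m : ℕ} {w : ℝ → ℝ}

/-- a Dirichlet series and a continuation `Ψ` of the exponential of its negative, with the
local form `Ψ = s^m g` at `s = 0` -/
structure Cor (lam c : ℕ → ℝ) (δ σ : ℝ) (Ψ g : ℂ → ℂ) (m : ℕ) : Prop where
  D : Dat lam c δ σ
  Ψd : ∀ s : ℂ, 0 < s.re → DifferentiableAt ℂ Ψ s
  hexp : ∀ s : ℂ, σ < s.re → exp (-DD lam c s) = Ψ s
  hg : AnalyticAt ℂ g 0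
  hg0 : g 0 ≠ 0
  near : ∀ᶠ s in 𝓝 (0 : ℂ), Ψ s = s ^ m * g s

theorem Cor.cont (E : Cor lam c δ σ Ψ g m) : Cont lam c σ 0 Ψ (fun _ => 0) where
  θ0 := le_rfl
  Ψd := E.Ψd
  Kd := fun s _ => differentiableAt_const _
  ne := fun s hs => by
    rw [← E.hexp s hs]
    exact Complex.exp_ne_zero _
  eq := fun s hs => by
    have ho : IsOpen {z : ℂ | σ < z.re} := isOpen_lt continuous_const Complex.continuous_re
    have hge : Ψ =ᶠ[𝓝 s] fun w => exp (-DD lam c w) := by
      filter_upwards [ho.mem_nhds hs] with w hw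
      exact (E.hexp w hw).symm
    have d2 : HasDerivAt (fun w => -DD lam c w) (- -P lam c s) s := (dd_deriv E.D hs).neg
    rw [hge.deriv_eq, hge.eq_of_nhds, d2.cexp.deriv]
    have := Complex.exp_ne_zero (-DD lam c s)
    field_simp
    ring

/-- the bounds on the real axis -/
theorem Cor.bounds (E : Cor lam c δ σ Ψ g m) (hne : ∀ s : ℂ, 0 < s.re → Ψ s ≠ 0) :
    ∃ (J : ℝ → ℂ) (CQ CJ : ℝ), (∀ v : ℝ, 0 < v → v * ‖Qf Ψ (fun _ => 0) v‖ ≤ CQ) ∧
      (∀ v : ℝ, 0 < v → HasDerivAt J (Qf Ψ (fun _ => 0) v) v) ∧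
      (∀ v : ℝ, 1 ≤ v → ‖J v‖ ≤ CJ) ∧
      ∀ v : ℝ, 0 < v → v ≤ 1 → ‖J v - (m : ℝ) * Real.log v‖ ≤ CJ := by
  have D := E.D
  have hσ := D.σ0
  obtain ⟨Λ, h1, h2, h3⟩ := exists_Lam (G := fun _ => 0) D hσ E.Ψd hne
    (fun s _ => differentiableAt_const _) (fun s hs => by
      simp only [zero_sub]
      exact E.hexp s hs)
  obtain ⟨r, Γ, hr, hΓc, hΓ0, hLn⟩ := log_near h2 h1 E.hg E.hg0 E.near
  have hQ : ∀ v : ℝ, Qf Ψ (fun _ => 0) (v : ℂ) = deriv Ψ v / Ψ v := fun v => by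
    unfold Qf
    rw [sub_zero]
  have hre : ∀ v : ℝ, 0 < v → 0 < (v : ℂ).re := fun v hv => by rwa [Complex.ofReal_re]
  have hcastc : Continuous fun v : ℝ => (v : ℂ) := Complex.continuous_ofReal
  -- continuity on the positive axis
  have hΛc : ∀ v : ℝ, 0 < v → ContinuousAt (fun v : ℝ => Λ v) v := fun v hv =>
    ContinuousAt.comp (f := fun v : ℝ => (v : ℂ)) (h1 v (hre v hv)).continuousAt
      hcastc.continuousAt
  have ho : IsOpen {z : ℂ | 0 < z.re} := isOpen_lt continuous_const Complex.continuous_re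
  have hΨa : ∀ s : ℂ, 0 < s.re → AnalyticAt ℂ Ψ s := fun s hs =>
    (DifferentiableOn.analyticOnNhd (fun z hz => (E.Ψd z hz).differentiableWithinAt) ho) s hs
  have hqc : ∀ v : ℝ, 0 < v → ContinuousAt (fun v : ℝ => deriv Ψ v / Ψ v) v := fun v hv => by
    have e1 : ContinuousAt (fun s : ℂ => deriv Ψ s / Ψ s) (v : ℂ) :=
      (hΨa v (hre v hv)).deriv.continuousAt.div (hΨa v (hre v hv)).continuousAt (hne v (hre v hv))
    exact ContinuousAt.comp (f := fun v : ℝ => (v : ℂ)) e1 hcastc.continuousAt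
  set S₀ : ℝ := ∑' n, |c n| * Real.exp (-(σ * lam n)) with hS₀
  have hS0 : 0 ≤ S₀ := tsum_nonneg fun n => by positivity
  -- `Λ` for large `v`
  obtain ⟨C1, hC1⟩ : ∃ C1 : ℝ, ∀ v : ℝ, 1 ≤ v → ‖Λ v‖ ≤ C1 := by
    obtain ⟨B, hB⟩ := (isCompact_Icc (a := (1 : ℝ)) (b := σ + 1)).exists_bound_of_continuousOn
      (f := fun v : ℝ => Λ v) (fun v hv => (hΛc v (by linarith [hv.1])).continuousWithinAt)
    refine ⟨max B S₀, fun v hv => ?_⟩
    rcases le_or_gt v (σ + 1) with h | h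
    · exact (hB v ⟨hv, h⟩).trans (le_max_left _ _)
    · refine le_trans ?_ (le_max_right _ _)
      have hv' : σ < (v : ℂ).re := by rw [Complex.ofReal_re]; linarith
      rw [h3 _ hv', zero_sub, norm_neg]
      refine (dd_le D hv'.le).trans ?_
      have e4 : Real.exp (-(δ * ((v : ℂ).re - σ))) ≤ 1 := by
        apply Real.exp_le_one_iff.2
        have := mul_nonneg D.δ0.le (by linarith : 0 ≤ (v : ℂ).re - σ)
        linarith
      calc S₀ * Real.exp (-(δ * ((v : ℂ).re - σ))) ≤ S₀ * 1 := mul_le_mul_of_nonneg_left e4 hS0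
        _ = S₀ := mul_one _
  -- the local radius
  have hgn : ∀ᶠ v in 𝓝 (0 : ℂ), g v ≠ 0 := E.hg.continuousAt.eventually_ne E.hg0
  have hga : ∀ᶠ v in 𝓝 (0 : ℂ), AnalyticAt ℂ g v := E.hg.eventually_analyticAt
  obtain ⟨r₁, hr₁, hball⟩ := Metric.eventually_nhds_iff_ball.1 (E.near.and (hgn.and hga))
  set r₂ : ℝ := min (min r r₁) 1 / 2 with hr₂
  have hm0 : 0 < min (min r r₁) 1 := lt_min (lt_min hr hr₁) one_pos
  have hr₂0 : 0 < r₂ := by positivity
  have hr₂1 : r₂ < 1 := by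
    have : min (min r r₁) 1 ≤ 1 := min_le_right _ _
    linarith
  have hr₂r : r₂ < r := by
    have : min (min r r₁) 1 ≤ r := (min_le_left _ _).trans (min_le_left _ _)
    linarith
  have hr₂r₁ : r₂ < r₁ := by
    have : min (min r r₁) 1 ≤ r₁ := (min_le_left _ _).trans (min_le_right _ _)
    linarith
  have hmem : ∀ {ρ : ℝ}, r₂ < ρ → ∀ v : ℝ, 0 ≤ v → v ≤ r₂ → (v : ℂ) ∈ Metric.ball (0 : ℂ) ρ := by
    intro ρ hρ v hv hv2
    rw [Metric.mem_ball, dist_zero_right, Complex.norm_real, Real.norm_eq_abs, abs_of_nonneg hv]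
    linarith
  -- `Λ` for small `v`
  obtain ⟨C0, hC0⟩ : ∃ C0 : ℝ, ∀ v : ℝ, 0 < v → v ≤ 1 →
      ‖Λ v - (m : ℝ) * Real.log v‖ ≤ C0 := by
    obtain ⟨B, hB⟩ := (isCompact_Icc (a := (0 : ℝ)) (b := r₂)).exists_bound_of_continuousOn
      (f := fun v : ℝ => Γ v) (fun v hv => by
        have e1 : ContinuousAt Γ (v : ℂ) :=
          hΓc.continuousAt (Metric.isOpen_ball.mem_nhds (hmem hr₂r v hv.1 hv.2))
        exact (ContinuousAt.comp (f := fun v : ℝ => (v : ℂ)) e1
          hcastc.continuousAt).continuousWithinAt)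
    obtain ⟨B', hB'⟩ := (isCompact_Icc (a := r₂) (b := (1 : ℝ))).exists_bound_of_continuousOn
      (f := fun v : ℝ => Λ v - (m : ℝ) * Real.log v) (fun v hv => by
        have hv0 : 0 < v := hr₂0.trans_le hv.1
        have e1 : ContinuousAt (fun v : ℝ => ((Real.log v : ℝ) : ℂ)) v :=
          Complex.continuous_ofReal.continuousAt.comp (Real.continuousAt_log hv0.ne')
        exact ((hΛc v hv0).sub (continuousAt_const.mul e1)).continuousWithinAt)
    refine ⟨max B B', fun v hv hv1 => ?_⟩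
    rcases le_or_gt v r₂ with h | h
    · refine le_trans ?_ (le_max_left _ _)
      have h5 := hLn (v : ℂ) (hre v hv) (by
        rw [Complex.norm_real, Real.norm_eq_abs, abs_of_pos hv]
        linarith)
      rw [h5, ← Complex.ofReal_log hv.le]
      have e1 : ((m : ℂ) * ((Real.log v : ℝ) : ℂ) + Γ v - ((m : ℝ) : ℂ) * ((Real.log v : ℝ) : ℂ)) =
          Γ v := by
        push_cast
        ring
      rw [e1]
      exact hB v ⟨hv.le, h⟩
    · exact (hB' v ⟨h.le, hv1⟩).trans (le_max_right _ _)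
  -- the logarithmic derivative
  obtain ⟨CQ, hCQ⟩ : ∃ CQ : ℝ, ∀ v : ℝ, 0 < v → v * ‖deriv Ψ v / Ψ v‖ ≤ CQ := by
    obtain ⟨B, hB⟩ := (isCompact_Icc (a := (0 : ℝ)) (b := r₂)).exists_bound_of_continuousOn
      (f := fun v : ℝ => deriv g v / g v) (fun v hv => by
        obtain ⟨-, e1, e2⟩ := hball _ (hmem hr₂r₁ v hv.1 hv.2)
        have e3 : ContinuousAt (fun s : ℂ => deriv g s / g s) (v : ℂ) :=
          e2.deriv.continuousAt.div e2.continuousAt e1
        exact (ContinuousAt.comp (f := fun v : ℝ => (v : ℂ)) e3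
          hcastc.continuousAt).continuousWithinAt)
    obtain ⟨B', hB'⟩ := (isCompact_Icc (a := r₂) (b := σ + 1)).exists_bound_of_continuousOn
      (f := fun v : ℝ => deriv Ψ v / Ψ v) (fun v hv =>
        (hqc v (hr₂0.trans_le hv.1)).continuousWithinAt)
    set B'' : ℝ := 2 / δ * S₀ with hB''
    have hδ := D.δ0
    have hB''0 : 0 ≤ B'' := by positivity
    refine ⟨max (m + |B|) (max ((σ + 1) * |B'|) ((σ + 1) * B'')), fun v hv => ?_⟩
    rcases le_or_gt v r₂ with h | h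
    · refine le_trans ?_ (le_max_left _ _)
      have hvc : (v : ℂ) ≠ 0 := by exact_mod_cast hv.ne'
      obtain ⟨-, e1, e2⟩ := hball _ (hmem hr₂r₁ v hv.le h)
      have e3 : deriv Ψ v / Ψ v = m / v + deriv g v / g v := by
        have h4 : Ψ =ᶠ[𝓝 (v : ℂ)] fun w => w ^ m * g w := by
          filter_upwards [Metric.isOpen_ball.mem_nhds (hmem hr₂r₁ v hv.le h)] with w hw
          exact (hball w hw).1
        have h5 : HasDerivAt (fun w : ℂ => w ^ m * g w)
            ((m * (v : ℂ) ^ (m - 1) * 1) * g v + (v : ℂ) ^ m * deriv g v) v :=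
          ((hasDerivAt_id (v : ℂ)).pow m).mul e2.differentiableAt.hasDerivAt
        rw [h4.deriv_eq, h4.eq_of_nhds, h5.deriv]
        rcases Nat.eq_zero_or_pos m with hm0 | hm0
        · rw [hm0]
          simp
        · obtain ⟨k, hk⟩ : ∃ k, m = k + 1 := ⟨m - 1, by omega⟩
          rw [hk]
          simp only [Nat.add_sub_cancel]
          push_cast
          field_simp
          ring
      rw [e3]
      have e4 : ‖(m : ℂ) / v‖ = m / v := by
        rw [norm_div, Complex.norm_natCast, Complex.norm_real, Real.norm_eq_abs, abs_of_pos hv]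
      have e5 := (hB v ⟨hv.le, h⟩).trans (le_abs_self B)
      have e6 : ‖(m : ℂ) / v + deriv g v / g v‖ ≤ m / v + |B| := by
        rw [← e4]
        exact (norm_add_le _ _).trans (add_le_add le_rfl e5)
      calc v * _ ≤ v * (m / v + |B|) := mul_le_mul_of_nonneg_left e6 hv.le
        _ = m + v * |B| := by field_simp
        _ ≤ m + 1 * |B| := by
          have : v ≤ 1 := h.trans hr₂1.le
          have := mul_le_mul_of_nonneg_right this (abs_nonneg B)
          linarith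
        _ = _ := by ring
    · refine le_trans ?_ (le_max_right _ _)
      rcases le_or_gt v (σ + 1) with h' | h'
      · refine le_trans ?_ (le_max_left _ _)
        have e5 := (hB' v ⟨h.le, h'⟩).trans (le_abs_self B')
        exact mul_le_mul h' e5 (norm_nonneg _) (by linarith)
      · refine le_trans ?_ (le_max_right _ _)
        have hv' : σ < (v : ℂ).re := by rw [Complex.ofReal_re]; linarith
        have e1 := E.cont.eq _ hv'
        rw [sub_zero] at e1
        have e2 := P_le D hv'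
        rw [← e1]
        rw [Complex.ofReal_re] at e2
        have e3 : 0 < v - σ := by linarith
        have e4 : 1 < v - σ := by linarith
        calc v * ‖P lam c v‖ ≤ v * (B'' / (v - σ) ^ 2) := mul_le_mul_of_nonneg_left e2 hv.le
          _ = (v / (v - σ) ^ 2) * B'' := by ring
          _ ≤ (σ + 1) * B'' := by
            refine mul_le_mul_of_nonneg_right ?_ hB''0
            rw [div_le_iff₀ (by positivity)]
            have e5 : (v - σ) ≤ (v - σ) ^ 2 := by nlinarith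
            have e6 : σ ≤ σ * (v - σ) := by nlinarith
            calc v = σ + (v - σ) := by ring
              _ ≤ σ * (v - σ) + (v - σ) := by linarith
              _ = (σ + 1) * (v - σ) := by ring
              _ ≤ (σ + 1) * (v - σ) ^ 2 := mul_le_mul_of_nonneg_left e5 (by linarith)
  refine ⟨fun v => Λ v, CQ, max C1 C0, fun v hv => ?_, fun v hv => ?_, fun v hv => ?_,
    fun v hv hv1 => ?_⟩
  · rw [hQ]
    exact hCQ v hv
  · rw [hQ]
    exact (h1 v (hre v hv)).comp_ofReal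
  · exact (hC1 v hv).trans (le_max_left _ _)
  · exact (hC0 v hv hv1).trans (le_max_right _ _)

/-- the Laplace transform on the real axis -/
lemma lap_re (t : ℝ) (lam c : ℕ → ℝ) (w : ℝ → ℝ) (m : ℕ) :
    (t : ℂ) * L lam c w t + ((m : ℝ) : ℂ) * Real.log t =
        ((t * (∫ T in Ioi (0 : ℝ), Real.exp (-(t * T)) * S lam c w T) -
          m * Real.log (1 / t) : ℝ) : ℂ) := by
  unfold L
  have h3 : ∀ T : ℝ, Complex.exp (-((t : ℂ) * T)) * (S lam c w T : ℂ) =
      ((Real.exp (-(t * T)) * S lam c w T : ℝ) : ℂ) := fun T => by push_cast; rfl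
  simp only [h3]
  rw [integral_complex_ofReal, one_div, Real.log_inv]
  push_cast
  ring

lemma log_le_self' {T : ℝ} (hT : 2 ≤ T) : Real.log T ≤ T := by
  have := Real.log_le_sub_one_of_pos (by linarith : 0 < T)
  linarith

/-- **The constant of logarithmic growth of the means is the order.** -/
theorem Cor.order_eq (E : Cor lam c δ σ Ψ g m) (hne : ∀ s : ℂ, 0 < s.re → Ψ s ≠ 0)
    (hw : Wt w W b) (hdini : IntegrableOn (fun u : ℝ => |w u - 1| / u) (Ioo 0 b)) {ρ : ℝ}
    (hlim : Tendsto (fun T => S lam c w T / Real.log T) atTop (𝓝 ρ)) : ρ = m := by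
  have D := E.D
  have H := E.cont
  have hb := hw.b0
  obtain ⟨J, CQ, CJ, hQ, hJ, hJ1, hJ0⟩ := E.bounds hne
  have hS : ∀ α, 0 < α → ∃ C T₀ : ℝ, ∀ T, T₀ ≤ T → |S lam c w T| ≤ C * Real.exp (α * T) := by
    intro α hα
    have h1 : ∀ᶠ T in atTop, |S lam c w T / Real.log T - ρ| < 1 := by
      have := (Metric.tendsto_nhds.1 hlim) 1 one_pos
      simpa [Real.dist_eq] using this
    obtain ⟨T₀, hT₀⟩ := h1.exists_forall_of_atTop
    refine ⟨(|ρ| + 1) / α, max T₀ 2, fun T hT => ?_⟩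
    have h2 := hT₀ T ((le_max_left _ _).trans hT)
    have h3 : 2 ≤ T := (le_max_right _ _).trans hT
    have h4 : 0 < Real.log T := Real.log_pos (by linarith)
    have h5 : |S lam c w T / Real.log T| ≤ |ρ| + 1 := by
      have := abs_sub_abs_le_abs_sub (S lam c w T / Real.log T) ρ
      linarith
    rw [abs_div, abs_of_pos h4, div_le_iff₀ h4] at h5
    have h6 := log_le_self' h3
    have h7 : α * T ≤ Real.exp (α * T) := by
      have := Real.add_one_le_exp (α * T)
      linarith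
    calc |S lam c w T| ≤ (|ρ| + 1) * Real.log T := h5
      _ ≤ (|ρ| + 1) * T := by gcongr
      _ = (|ρ| + 1) / α * (α * T) := by field_simp
      _ ≤ _ := by gcongr
  obtain ⟨C, hC⟩ := EE_asymp D hw H hne hQ hJ (m := m) hJ1 hJ0 hdini
  refine limit_eq (S_meas D hw) (fun T₀ => ?_) hlim hb (C := C) fun t ht htb => ?_
  · refine ⟨W * Real.exp (σ * b * |T₀|) * ∑' n, |c n| * Real.exp (-(σ * lam n)),
      fun T hT hT0 => (S_le D hw hT).trans ?_⟩
    have hW := hw.W0
    have h1 : T ≤ |T₀| := hT0.trans (le_abs_self _)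
    have h2 : 0 ≤ ∑' n, |c n| * Real.exp (-(σ * lam n)) := tsum_nonneg fun n => by positivity
    have hσ := D.σ0
    gcongr
  · have h1 := hC t ht htb
    rw [← L_real D hw H hne hS ht, lap_re, Complex.norm_real, Real.norm_eq_abs] at h1
    exact h1

/-- **One-sided bounds for a mean with a nonnegative weight.** -/
theorem Cor.order_le (E : Cor lam c δ σ Ψ g m) (hw : Wt w W b) (hw0 : ∀ u, 0 ≤ w u)
    (htop : ∀ κ, κ < b → ¬ ∀ᵐ x, x ∈ Ioo κ b → w x = 0)
    (hdini : IntegrableOn (fun u : ℝ => |w u - 1| / u) (Ioo 0 b)) {ρ : ℝ}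
    (hU : ∀ ε : ℝ, 0 < ε → ∀ᶠ T : ℝ in atTop, S lam c w T ≤ (ρ + ε) * Real.log T) :
    (∀ s : ℂ, 0 < s.re → Ψ s ≠ 0) ∧ (m : ℝ) ≤ ρ := by
  have D := E.D
  have H := E.cont
  have hb := hw.b0
  have hU' : ∀ α, b * 0 < α → ∃ C T₀ : ℝ, ∀ T, T₀ ≤ T → S lam c w T ≤ C * Real.exp (α * T) := by
    intro α hα
    rw [mul_zero] at hα
    obtain ⟨T₀, hT₀⟩ := ((hU 1 one_pos).and (eventually_ge_atTop 2)).exists_forall_of_atTop
    refine ⟨|ρ + 1| / α, T₀, fun T hT => ?_⟩
    obtain ⟨h1, h2⟩ := hT₀ T hT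
    have h3 : α * T ≤ Real.exp (α * T) := by
      have := Real.add_one_le_exp (α * T)
      linarith
    have h4 : 0 ≤ Real.log T := Real.log_nonneg (by linarith)
    calc S lam c w T ≤ (ρ + 1) * Real.log T := h1
      _ ≤ |ρ + 1| * Real.log T := mul_le_mul_of_nonneg_right (le_abs_self _) h4
      _ ≤ |ρ + 1| * T := mul_le_mul_of_nonneg_left (log_le_self' h2) (abs_nonneg _)
      _ = |ρ + 1| / α * (α * T) := by field_simp
      _ ≤ _ := by gcongr
  obtain ⟨hL, hne⟩ := Pool.Agent.TH942.OS.upper D hw hw0 H htop hU'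
  have hL' : ∀ t : ℂ, 0 < t.re → DifferentiableAt ℂ (L lam c w) t := fun t ht =>
    hL t (by rwa [mul_zero])
  refine ⟨hne, ?_⟩
  have hI : ∀ x : ℝ, 0 < x → LInt (S0 lam c w) x := fun x hx =>
    S0_conv D hw hw0 H (fun y hy => hne y (by simpa using hy)) hU' (by rwa [mul_zero])
  obtain ⟨J, CQ, CJ, hQ, hJ, hJ1, hJ0⟩ := E.bounds hne
  obtain ⟨C, hC⟩ := EE_asymp D hw H hne hQ hJ (m := m) hJ1 hJ0 hdini
  refine le_of_forall_pos_le_add fun ε hε => ?_
  -- a bound on the whole half line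
  obtain ⟨A, hA⟩ : ∃ A : ℝ, ∀ T, 0 < T → S lam c w T ≤ A + (ρ + ε) * lgp T := by
    obtain ⟨T₀, hT₀⟩ := (hU ε hε).exists_forall_of_atTop
    set T₁ : ℝ := max T₀ 2 with hT₁
    have hT12 : 2 ≤ T₁ := le_max_right _ _
    set C2 : ℝ := W * Real.exp (σ * b * T₁) * ∑' n, |c n| * Real.exp (-(σ * lam n)) with hC2
    have hW := hw.W0
    have hσ := D.σ0
    have hs0 : 0 ≤ ∑' n, |c n| * Real.exp (-(σ * lam n)) := tsum_nonneg fun n => by positivity
    have hC20 : 0 ≤ C2 := by positivity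
    refine ⟨C2 + |ρ + ε| * lgp T₁, fun T hT => ?_⟩
    have hg := lgp_nonneg T
    have hg1 := lgp_nonneg T₁
    have hg2 : 0 ≤ |ρ + ε| * lgp T₁ := mul_nonneg (abs_nonneg _) hg1
    rcases le_or_gt T T₁ with h2 | h2
    · have h3 := (le_abs_self _).trans (S_le D hw hT)
      have h4 : W * Real.exp (σ * b * T) * ∑' n, |c n| * Real.exp (-(σ * lam n)) ≤ C2 := by
        rw [hC2]
        gcongr
      have h5 : lgp T ≤ lgp T₁ := by
        unfold lgp
        exact Real.log_le_log (lt_max_of_lt_right one_pos) (max_le_max_right _ h2)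
      have h6 : -((ρ + ε) * lgp T) ≤ |ρ + ε| * lgp T₁ := by
        calc -((ρ + ε) * lgp T) ≤ |(ρ + ε) * lgp T| := neg_le_abs _
          _ = |ρ + ε| * lgp T := by rw [abs_mul, abs_of_nonneg hg]
          _ ≤ _ := mul_le_mul_of_nonneg_left h5 (abs_nonneg _)
      linarith
    · have hT0 : T₀ ≤ T := (le_max_left _ _).trans h2.le
      have e1 : lgp T = Real.log T := by
        unfold lgp
        rw [max_eq_left (by linarith)]
      rw [e1]
      have := hT₀ T hT0
      linarith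
  refine log_upper (f := S lam c w) (fun t ht => ?_) hA hb (C := C) fun t ht htb => ?_
  · refine (hI t ht).congr_fun (fun T hT => ?_) measurableSet_Ioi
    simp only
    unfold S0
    rw [if_pos (show 0 < T from hT), mul_comm]
  · have h1 := hC t ht htb
    rw [← L_real' D hw H hne hL' ht, lap_re, Complex.norm_real, Real.norm_eq_abs] at h1
    exact h1

/-- **Bounded growth of a mean excludes zeros.** -/
theorem Cor.zero_free (E : Cor lam c δ σ Ψ g m) (hw : Wt w W b)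
    (htop : ∀ κ, κ < b → ¬ ∀ᵐ x, x ∈ Ioo κ b → w x = 0)
    (hS : ∀ α : ℝ, 0 < α → ∃ C T₀ : ℝ, ∀ T, T₀ ≤ T → |S lam c w T| ≤ C * Real.exp (α * T)) :
    ∀ s : ℂ, 0 < s.re → Ψ s ≠ 0 := fun _ hs =>
  Pool.Agent.TH942.LS.no_zeros E.D hw E.cont htop (by
    intro α hα
    rw [mul_zero] at hα
    exact hS α hα) hs

/-- **The limit theorem for Riesz means.** -/
theorem Cor.riesz (E : Cor lam c δ σ Ψ g m) (hne : ∀ s : ℂ, 0 < s.re → Ψ s ≠ 0) {k : ℝ}
    (hk : 0 < k) {C : ℝ} {κ : ℕ}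
    (hgrow : ∀ s : ℂ, 0 < s.re → ‖Ψ s‖ ≤ C * (1 + ‖s‖) ^ κ * (1 + 1 / s.re) ^ κ) :
    ∃ ℓ₀ : ℂ, exp ℓ₀ = g 0 ∧
      Tendsto (fun T : ℝ => (S lam c (rzw k) T : ℂ) - m * Real.log T) atTop
        (𝓝 (-ℓ₀ - m * (deriv Real.Gamma (k + 1) / Real.Gamma (k + 1) : ℝ))) := by
  obtain ⟨ℓ₀, h1, h2⟩ := riesz_lim (G := fun _ => 0) (κG := 0) (A := 0) (A' := 0) (g := g) (m := m)
    E.D hk E.Ψd hne (fun s _ => differentiableAt_const _) (fun s hs => by
      simp only [zero_sub]
      exact E.hexp s hs) hgrow (fun s _ => by simp) (fun s _ => by simp) E.hg E.hg0 E.near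
    (fun ζ _ => tendsto_const_nhds)
  refine ⟨ℓ₀, h1, ?_⟩
  rw [zero_sub] at h2
  exact h2

end Pool.Agent.TH270.RS
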